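import Pool.Agent.Q68.IT.Red

/-!
# Counting patterns
-/

set_option autoImplicit false

namespace Pool.Agent.Q68.IT

open Filter Topology Finset

variable {d : ℕ}

/-- The patterns of size `M` of `x`. -/
def Wd (x : Conf d) (M : ℕ) : Set ((Fin d → Fin M) → ℤ) := {p | ∃ v, Occ p x v}

/-- Boundary sites. -/
def Bd (d n N : ℕ) : Type := {u : Fin d → Fin N // ∃ i, (u i : ℕ) < n ∨ N ≤ (u i : ℕ) + n}

instance (n N : ℕ) : Finite (Bd d n N) := by unfold Bd; infer_instance

lemma Wd_finite {x : Conf d} {A : Finset ℤ} (hA : ∀ v, x v ∈ A) (M : ℕ) : (Wd x M).Finite := by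
  apply Set.Finite.subset (Set.Finite.pi (fun _ : Fin d → Fin M => A.finite_toSet))
  rintro p ⟨v, hv⟩ u _
  rw [← hv u]
  exact hA _

lemma Wd_nonempty (x : Conf d) (M : ℕ) : (Wd x M).Nonempty := ⟨fun u => x (0 + emb u), 0, fun _ => rfl⟩

lemma card_Wd_pos {x : Conf d} {A : Finset ℤ} (hA : ∀ v, x v ∈ A) (M : ℕ) :
    1 ≤ Nat.card (Wd x M) := by
  haveI := (Wd_finite hA M).to_subtype
  haveI := (Wd_nonempty x M).to_subtype
  exact Nat.card_pos

lemma card_Wd_mono {x : Conf d} {A : Finset ℤ} (hA : ∀ v, x v ∈ A) {M M' : ℕ} (h : M ≤ M') :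
    Nat.card (Wd x M) ≤ Nat.card (Wd x M') := by
  haveI := (Wd_finite hA M').to_subtype
  let f : Wd x M → Wd x M' := fun p => ⟨fun u => x (p.2.choose + emb u), p.2.choose, fun _ => rfl⟩
  apply Nat.card_le_card_of_injective f
  intro p q hpq
  apply Subtype.ext
  funext u
  have h1 := congrFun (congrArg Subtype.val hpq) (fun i => ⟨u i, lt_of_lt_of_le (u i).isLt h⟩)
  simp only [f] at h1
  have h2 := p.2.choose_spec u
  have h3 := q.2.choose_spec u
  rw [← h2, ← h3]
  exact h1

/-- Subblocks. -/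
def sub {k N : ℕ} (p : (Fin d → Fin (k * N)) → ℤ) (j : Fin d → Fin k) : (Fin d → Fin N) → ℤ :=
  fun s => p (fun i => finProdFinEquiv (j i, s i))

lemma sub_occ {k N : ℕ} {p : (Fin d → Fin (k * N)) → ℤ} {x : Conf d} {v : Fin d → ℤ}
    (h : Occ p x v) (j : Fin d → Fin k) : Occ (sub p j) x (v + (N : ℤ) • emb j) := by
  intro s
  unfold sub
  rw [← h]
  congr 1
  funext i
  simp only [Pi.add_apply, Pi.smul_apply, emb, finProdFinEquiv_apply_val, smul_eq_mul]
  push_cast
  ring

lemma sub_ext {k N : ℕ} {p q : (Fin d → Fin (k * N)) → ℤ} (h : ∀ j, sub p j = sub q j) : p = q := by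
  funext u
  have h1 := congrFun (h (fun i => (finProdFinEquiv.symm (u i)).1))
    (fun i => (finProdFinEquiv.symm (u i)).2)
  unfold sub at h1
  have e : ∀ i, finProdFinEquiv ((finProdFinEquiv.symm (u i)).1, (finProdFinEquiv.symm (u i)).2) =
      u i := fun i => by rw [Prod.mk.eta]; exact Equiv.apply_symm_apply _ _
  simp only [e] at h1
  exact h1

lemma card_Wd_mul {x : Conf d} {A : Finset ℤ} (hA : ∀ v, x v ∈ A) (n N : ℕ)
    (hnp : ∀ (P Q : (Fin d → Fin N) → ℤ), {v | Occ P x v}.Infinite →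
      {v | Occ Q x v}.Infinite → SameBd n P Q → P = Q) :
    ∃ E : ℕ, ∀ k : ℕ, Nat.card (Wd x (k * N)) ≤
      A.card ^ (k ^ d * Nat.card (Bd d n N)) + k ^ d * E := by
  classical
  -- the exceptional locations
  set Ex : Set (Fin d → ℤ) := {v | ∃ P ∈ Wd x N, ¬ {v | Occ P x v}.Infinite ∧ Occ P x v} with hEx
  have hExfin : Ex.Finite := by
    have : Ex = ⋃ P ∈ {P | P ∈ Wd x N ∧ ¬ {v | Occ P x v}.Infinite}, {v | Occ P x v} := by
      ext v
      simp only [hEx, Set.mem_setOf_eq, Set.mem_iUnion, exists_prop]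
      constructor
      · rintro ⟨P, h1, h2, h3⟩
        exact ⟨P, ⟨h1, h2⟩, h3⟩
      · rintro ⟨P, ⟨h1, h2⟩, h3⟩
        exact ⟨P, h1, h2, h3⟩
    rw [this]
    apply Set.Finite.biUnion
    · exact (Wd_finite hA N).subset fun P hP => hP.1
    · intro P hP
      exact Set.not_infinite.1 hP.2
  haveI := hExfin.to_subtype
  refine ⟨Nat.card Ex, fun k => ?_⟩
  let f : Wd x (k * N) → (((Fin d → Fin k) × Bd d n N) → A) ⊕ ((Fin d → Fin k) × Ex) := fun p =>
    if h : ∀ j, {v | Occ (sub p.1 j) x v}.Infinite then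
      Sum.inl fun q => ⟨sub p.1 q.1 q.2.1, by
        have := sub_occ p.2.choose_spec q.1 q.2.1
        rw [← this]
        exact hA _⟩
    else Sum.inr ((not_forall.1 h).choose, ⟨p.2.choose + (N : ℤ) • emb (not_forall.1 h).choose,
      sub p.1 (not_forall.1 h).choose, ⟨_, sub_occ p.2.choose_spec _⟩, (not_forall.1 h).choose_spec,
      sub_occ p.2.choose_spec _⟩)
  have hf : Function.Injective f := by
    intro p q hpq
    apply Subtype.ext
    by_cases hp : ∀ j, {v | Occ (sub p.1 j) x v}.Infinite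
    · by_cases hq : ∀ j, {v | Occ (sub q.1 j) x v}.Infinite
      · simp only [f, dif_pos hp, dif_pos hq, Sum.inl.injEq] at hpq
        apply sub_ext
        intro j
        apply hnp _ _ (hp j) (hq j)
        intro u hu
        have := congrArg Subtype.val (congrFun hpq (j, ⟨u, hu⟩))
        exact this
      · simp only [f, dif_pos hp, dif_neg hq] at hpq
        exact absurd hpq (by simp)
    · by_cases hq : ∀ j, {v | Occ (sub q.1 j) x v}.Infinite
      · simp only [f, dif_neg hp, dif_pos hq] at hpq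
        exact absurd hpq (by simp)
      · simp only [f, dif_neg hp, dif_neg hq, Sum.inr.injEq, Prod.mk.injEq, Subtype.mk.injEq] at hpq
        obtain ⟨h1, h2⟩ := hpq
        rw [h1] at h2
        have h3 := add_right_cancel h2
        funext u
        rw [← p.2.choose_spec u, ← q.2.choose_spec u, h3]
  have h1 := Nat.card_le_card_of_injective f hf
  rw [Nat.card_sum, Nat.card_fun, Nat.card_prod, Nat.card_prod] at h1
  simpa [Nat.card_fun, Nat.card_eq_fintype_card] using h1

lemma card_Bd (n N : ℕ) (hd : 1 ≤ d) : Nat.card (Bd d n N) ≤ d * (2 * n * N ^ (d - 1)) := by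
  classical
  have h1 : Nat.card (Bd d n N) = (Finset.univ.filter fun u : Fin d → Fin N =>
      ∃ i, (u i : ℕ) < n ∨ N ≤ (u i : ℕ) + n).card := by
    unfold Bd
    rw [Nat.card_eq_fintype_card, Fintype.card_subtype]
  rw [h1]
  set S : Finset (Fin N) := Finset.univ.filter fun a : Fin N => (a : ℕ) < n ∨ N ≤ (a : ℕ) + n with hS
  have hScard : S.card ≤ 2 * n := by
    have h2 : S.card ≤ (Finset.range n ∪ Finset.Ico (N - n) N).card := by
      apply Finset.card_le_card_of_injOn (fun a : Fin N => (a : ℕ))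
      · intro a ha
        have := (Finset.mem_filter.1 ha).2
        simp only [Finset.coe_union, Set.mem_union, Finset.mem_coe, Finset.mem_range, Finset.mem_Ico]
        have := a.isLt
        omega
      · intro a _ b _ h
        exact Fin.ext h
    refine h2.trans ((Finset.card_union_le _ _).trans ?_)
    rw [Finset.card_range, Nat.card_Ico]
    omega
  have h3 : (Finset.univ.filter fun u : Fin d → Fin N =>
      ∃ i, (u i : ℕ) < n ∨ N ≤ (u i : ℕ) + n) ⊆
      Finset.univ.biUnion fun i : Fin d => Fintype.piFinset fun j => if j = i then S else Finset.univ := by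
    intro u hu
    obtain ⟨i, hi⟩ := (Finset.mem_filter.1 hu).2
    rw [Finset.mem_biUnion]
    refine ⟨i, Finset.mem_univ i, ?_⟩
    rw [Fintype.mem_piFinset]
    intro j
    split_ifs with hj
    · subst hj
      exact Finset.mem_filter.2 ⟨Finset.mem_univ _, hi⟩
    · exact Finset.mem_univ _
  refine (Finset.card_le_card h3).trans ?_
  refine Finset.card_biUnion_le.trans ?_
  calc ∑ i : Fin d, (Fintype.piFinset fun j => if j = i then S else Finset.univ).card
      ≤ ∑ i : Fin d, 2 * n * N ^ (d - 1) := by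
        apply Finset.sum_le_sum
        intro i _
        rw [Fintype.card_piFinset]
        rw [← Finset.mul_prod_erase _ _ (Finset.mem_univ i)]
        rw [if_pos rfl]
        apply Nat.mul_le_mul hScard
        rw [Finset.prod_congr rfl (g := fun _ => N)]
        · rw [Finset.prod_const, Finset.card_erase_of_mem (Finset.mem_univ i), Finset.card_univ,
            Fintype.card_fin]
        · intro j hj
          rw [if_neg (Finset.ne_of_mem_erase hj), Finset.card_univ, Fintype.card_fin]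
    _ = d * (2 * n * N ^ (d - 1)) := by
        rw [Finset.sum_const, Finset.card_univ, Fintype.card_fin, smul_eq_mul]

lemma asym1 (d : ℕ) (c : ℝ) : ∀ᶠ M : ℕ in atTop, ((M : ℝ) + c) ^ d ≤ 2 * (M : ℝ) ^ d := by
  have h1 : Tendsto (fun M : ℕ => (1 + c / (M : ℝ)) ^ d) atTop (𝓝 ((1 + 0) ^ d)) := by
    apply Tendsto.pow
    apply Tendsto.const_add
    exact tendsto_const_div_atTop_nhds_zero_nat c
  rw [add_zero, one_pow] at h1
  filter_upwards [h1.eventually_lt_const (show (1:ℝ) < 2 by norm_num), eventually_gt_atTop 0]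
    with M h2 h3
  have hM : (0:ℝ) < M := by exact_mod_cast h3
  have h4 : ((M : ℝ) + c) ^ d = (1 + c / (M : ℝ)) ^ d * (M : ℝ) ^ d := by
    rw [← mul_pow]
    congr 1
    field_simp
  rw [h4]
  exact mul_le_mul_of_nonneg_right h2.le (by positivity)

lemma asym2 (ε C : ℝ) (hε : 0 < ε) : ∀ᶠ t : ℝ in atTop,
    Real.exp (ε / 2 * t) + C * t ≤ Real.exp (ε * t) := by
  have h1 : Tendsto (fun t : ℝ => (ε / 2 * t) ^ 1 * Real.exp (-(ε / 2 * t))) atTop (𝓝 0) :=
    (Real.tendsto_pow_mul_exp_neg_atTop_nhds_zero 1).comp (tendsto_id.const_mul_atTop (by positivity))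
  have h2 : ∀ᶠ t : ℝ in atTop, (ε / 2 * t) ^ 1 * Real.exp (-(ε / 2 * t)) < (ε / 2) / (|C| + 1) :=
    h1.eventually_lt_const (by positivity)
  have h3 : Tendsto (fun t : ℝ => Real.exp (ε / 2 * t)) atTop atTop :=
    Real.tendsto_exp_atTop.comp (tendsto_id.const_mul_atTop (by positivity))
  filter_upwards [h2, h3.eventually_ge_atTop 2, eventually_gt_atTop 0] with t h2 h3 h4
  set e := Real.exp (ε / 2 * t) with he
  have he2 : Real.exp (ε * t) = e * e := by
    rw [he, ← Real.exp_add]; congr 1; ring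
  have he3 : Real.exp (-(ε / 2 * t)) = e⁻¹ := by rw [he, Real.exp_neg]
  rw [he2]
  rw [he3, pow_one, lt_div_iff₀ (by positivity)] at h2
  have he0 : 0 < e := by linarith
  have h5 : (|C| + 1) * t < e := by
    have h6 : ε / 2 * t * (|C| + 1) < ε / 2 * e := by
      have := mul_lt_mul_of_pos_right h2 he0
      have h7 : ε / 2 * t * e⁻¹ * (|C| + 1) * e = ε / 2 * t * (|C| + 1) := by
        field_simp
      rwa [h7] at this
    have h8 : ε / 2 * ((|C| + 1) * t) < ε / 2 * e := by linarith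
    exact lt_of_mul_lt_mul_left h8 (by positivity)
  have h9 : C * t ≤ (|C| + 1) * t := by
    apply mul_le_mul_of_nonneg_right _ h4.le
    linarith [le_abs_self C]
  nlinarith

theorem tendsto_card {x : Conf d} (hd : 1 ≤ d) {A : Finset ℤ} (hA : ∀ v, x v ∈ A) (n : ℕ)
    (hnp : ∀ (N : ℕ) (P Q : (Fin d → Fin N) → ℤ), {v | Occ P x v}.Infinite →
      {v | Occ Q x v}.Infinite → SameBd n P Q → P = Q) :
    Tendsto (fun M : ℕ => Real.log (Nat.card (Wd x M)) / (M : ℝ) ^ d) atTop (𝓝 0) := by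
  have hApos : 1 ≤ A.card := Finset.card_pos.2 ⟨x 0, hA 0⟩
  have haR : (1:ℝ) ≤ A.card := by exact_mod_cast hApos
  have hloga : 0 ≤ Real.log A.card := Real.log_nonneg haR
  have key : ∀ ε > (0:ℝ), ∀ᶠ M : ℕ in atTop, Real.log (Nat.card (Wd x M)) ≤ ε * (M : ℝ) ^ d := by
    intro ε hε
    obtain ⟨N, hN⟩ := exists_nat_ge (max 1 (8 * d * n * Real.log A.card / ε))
    have hN1 : (1:ℝ) ≤ N := (le_max_left _ _).trans hN
    have hN2 : 8 * d * n * Real.log A.card / ε ≤ N := (le_max_right _ _).trans hN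
    have hN0 : (0:ℝ) < N := by linarith
    have hNpos : 1 ≤ N := by exact_mod_cast hN1
    have hb : Real.log A.card * (Nat.card (Bd d n N) : ℝ) ≤ ε / 4 * (N : ℝ) ^ d := by
      have h1 : (Nat.card (Bd d n N) : ℝ) ≤ d * (2 * n * (N:ℝ) ^ (d - 1)) := by
        exact_mod_cast card_Bd n N hd
      have h2 : (N:ℝ) ^ d = N * (N:ℝ) ^ (d - 1) := by
        conv_lhs => rw [show d = (d - 1) + 1 by omega]
        rw [pow_succ]; ring
      rw [div_le_iff₀ hε] at hN2
      calc Real.log A.card * (Nat.card (Bd d n N) : ℝ) ≤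
          Real.log A.card * (d * (2 * n * (N:ℝ) ^ (d - 1))) :=
            mul_le_mul_of_nonneg_left h1 hloga
        _ = (8 * d * n * Real.log A.card) * (N:ℝ) ^ (d - 1) / 4 := by ring
        _ ≤ (N * ε) * (N:ℝ) ^ (d - 1) / 4 := by
            gcongr
        _ = ε / 4 * (N : ℝ) ^ d := by rw [h2]; ring
    obtain ⟨E, hE⟩ := card_Wd_mul hA n N (hnp N)
    have hMd : Tendsto (fun M : ℕ => (M : ℝ) ^ d) atTop atTop :=
      (tendsto_pow_atTop (by omega)).comp tendsto_natCast_atTop_atTop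
    filter_upwards [asym1 d N, asym1 d 1, hMd.eventually (asym2 ε (2 * E) hε)] with M h1 h2 h3
    set k := M / N + 1 with hk
    have hMk : M ≤ k * N := by
      have := Nat.lt_div_mul_add (a := M) (b := N) (by omega)
      rw [hk, add_mul, one_mul]
      omega
    have hkN : ((k:ℝ) * N) ≤ M + N := by
      have : k * N ≤ M + N := by
        rw [hk, add_mul, one_mul]
        have := Nat.div_mul_le_self M N
        omega
      exact_mod_cast this
    have hkM : (k:ℝ) ≤ M + 1 := by
      have : k ≤ M + 1 := by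
        rw [hk]
        have := Nat.div_le_self M N
        omega
      exact_mod_cast this
    have h4 : Nat.card (Wd x M) ≤ A.card ^ (k ^ d * Nat.card (Bd d n N)) + k ^ d * E :=
      (card_Wd_mono hA hMk).trans (hE k)
    have h5 : (Nat.card (Wd x M) : ℝ) ≤
        (A.card : ℝ) ^ (k ^ d * Nat.card (Bd d n N)) + (k:ℝ) ^ d * E := by exact_mod_cast h4
    have h6 : (A.card : ℝ) ^ (k ^ d * Nat.card (Bd d n N)) ≤ Real.exp (ε / 2 * (M:ℝ) ^ d) := by
      rw [← Real.exp_log (show (0:ℝ) < A.card by linarith), ← Real.exp_nat_mul]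
      apply Real.exp_le_exp.2
      push_cast
      calc (k:ℝ) ^ d * (Nat.card (Bd d n N) : ℝ) * Real.log A.card
          = (k:ℝ) ^ d * (Real.log A.card * (Nat.card (Bd d n N) : ℝ)) := by ring
        _ ≤ (k:ℝ) ^ d * (ε / 4 * (N : ℝ) ^ d) := mul_le_mul_of_nonneg_left hb (by positivity)
        _ = ε / 4 * ((k:ℝ) * N) ^ d := by rw [mul_pow]; ring
        _ ≤ ε / 4 * ((M:ℝ) + N) ^ d := by gcongr
        _ ≤ ε / 4 * (2 * (M:ℝ) ^ d) := by gcongr
        _ = ε / 2 * (M:ℝ) ^ d := by ring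
    have h7 : (k:ℝ) ^ d * E ≤ 2 * E * (M:ℝ) ^ d := by
      calc (k:ℝ) ^ d * E ≤ ((M:ℝ) + 1) ^ d * E := by gcongr
        _ ≤ (2 * (M:ℝ) ^ d) * E := by gcongr
        _ = 2 * E * (M:ℝ) ^ d := by ring
    have hpos : (0:ℝ) < Nat.card (Wd x M) := by exact_mod_cast card_Wd_pos hA M
    rw [Real.log_le_iff_le_exp hpos]
    linarith
  rw [Metric.tendsto_atTop]
  intro ε hε
  obtain ⟨M0, hM0⟩ := (key (ε / 2) (by positivity)).exists_forall_of_atTop
  refine ⟨max M0 1, fun M hM => ?_⟩
  have hM1 : 1 ≤ M := (le_max_right _ _).trans hM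
  have hMR : (0:ℝ) < (M:ℝ) ^ d := by
    have : (0:ℝ) < M := by exact_mod_cast hM1
    positivity
  have h1 := hM0 M ((le_max_left _ _).trans hM)
  have hcard : (1:ℝ) ≤ Nat.card (Wd x M) := by exact_mod_cast card_Wd_pos hA M
  rw [Real.dist_eq, sub_zero, abs_of_nonneg (div_nonneg (Real.log_nonneg hcard) hMR.le),
    div_lt_iff₀ hMR]
  nlinarith

end Pool.Agent.Q68.IT
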