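import Mathlib

/-!
# The space of multidimensional shifts: definitions
-/

set_option autoImplicit false

namespace Pool.Agent.Q68.IT

open Filter Topology

/-- Configurations `ℤ^d → ℤ`. -/
abbrev Conf (d : ℕ) := (Fin d → ℤ) → ℤ

/-- `(σ^u x)_v = x_{u+v}`. -/
def shift {d : ℕ} (u : Fin d → ℤ) (x : Conf d) : Conf d := fun v => x (u + v)

/-- `‖n‖_∞`. -/
def supNorm {d : ℕ} (n : Fin d → ℤ) : ℕ := Finset.univ.sup fun i => (n i).natAbs

open Classical in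
/-- `δ (x, y) = 2^{-min {‖n‖_∞ : x_n ≠ y_n}}`, `δ (x, x) = 0`. -/
noncomputable def del {d : ℕ} (x y : Conf d) : ℝ :=
  if x = y then 0 else (1/2 : ℝ) ^ sInf {k : ℕ | ∃ n, x n ≠ y n ∧ supNorm n = k}

/-- `d`-dimensional shifts over a finite alphabet: `X` is closed for `δ` in `𝒜^{ℤ^d}` (equivalently
compact for `δ`) and invariant. -/
def IsShift {d : ℕ} (X : Set (Conf d)) : Prop :=
  (∃ A : Finset ℤ, ∀ x ∈ X, ∀ u, x u ∈ A) ∧
  (∀ x : Conf d, (∀ ε > 0, ∃ y ∈ X, del x y < ε) → x ∈ X) ∧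
  ∀ u, ∀ x ∈ X, shift u x ∈ X

/-- `X` is transitive: some point of `X` has a dense orbit. -/
def IsTransitive {d : ℕ} (X : Set (Conf d)) : Prop :=
  ∃ x ∈ X, ∀ y ∈ X, ∀ ε > 0, ∃ u, del (shift u x) y < ε

/-- The Hausdorff distance. -/
noncomputable def delH {d : ℕ} (X Z : Set (Conf d)) : ℝ :=
  max (⨆ x : X, ⨅ z : Z, del (x : Conf d) z) (⨆ z : Z, ⨅ x : X, del (x : Conf d) z)

/-- `X` is isolated in the space of transitive shifts. -/
def IsIsolated {d : ℕ} (X : Set (Conf d)) : Prop :=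
  ∃ ε > 0, ∀ Y : Set (Conf d), IsShift Y → IsTransitive Y → delH X Y < ε → Y = X

/-- The inclusion `{0, …, n-1}^d → ℤ^d`. -/
def emb {d n : ℕ} (u : Fin d → Fin n) : Fin d → ℤ := fun i => ((u i : ℕ) : ℤ)

/-- The patterns on `{0, …, n-1}^d` that appear in some configuration of `X`. -/
def lang {d : ℕ} (X : Set (Conf d)) (n : ℕ) : Set ((Fin d → Fin n) → ℤ) :=
  {p | ∃ x ∈ X, ∃ v, ∀ u, x (v + emb u) = p u}

end Pool.Agent.Q68.IT
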