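import Pool.Agent.Q68.IT.Red

/-!
# The limit configuration
-/

set_option autoImplicit false

namespace Pool.Agent.Q68.IT

open Filter Topology Finset

lemma red_box {d N n : ℕ} {P Q : (Fin d → Fin N) → ℤ} (hbd : SameBd n P Q) {x : Conf d}
    (hQ : ∃ v, Occ Q x v) (A : Finset ℤ) (hA : ∀ v, x v ∈ A) (D : Finset (Fin d → ℤ))
    (t : Fin d → ℝ) (ht : ∀ i, 0 < t i) (hneg : ∑ u, wt t (emb u) * ((Q u : ℝ) - P u) < 0)
    (Λ : Finset (Fin d → ℤ)) :
    ∃ z : Conf d, (∀ v, z v ∈ A) ∧ Good n x z ∧ (∀ v ∈ D, z v = x v) ∧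
      ∀ v, (∀ u : Fin d → Fin N, v + emb u ∈ Λ) → (∀ u : Fin d → Fin N, v + emb u ∉ D) →
        ¬ Occ P z v := by
  classical
  let S : Set (Conf d) := {z | (∀ v, z v ∈ A) ∧ Good n x z ∧ (∀ v ∈ D, z v = x v) ∧
    ∀ v, v ∉ Λ → z v = x v}
  have hSfin : S.Finite := by
    let f : Conf d → (Λ → ℤ) := fun z w => z w
    have hinj : Set.InjOn f S := by
      intro z hz z' hz' h
      funext v
      by_cases hv : v ∈ Λ
      · exact congrFun h ⟨v, hv⟩
      · rw [hz.2.2.2 v hv, hz'.2.2.2 v hv]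
    apply Set.Finite.of_finite_image _ hinj
    apply Set.Finite.subset (Set.Finite.pi (fun _ : Λ => A.finite_toSet))
    rintro _ ⟨z, hz, rfl⟩
    intro w _
    exact hz.1 w
  have hxS : x ∈ S := ⟨hA, fun v => ⟨v, fun u => rfl⟩, fun v _ => rfl, fun v _ => rfl⟩
  obtain ⟨z, hzS, hmin⟩ := hSfin.exists_minimalFor (fun z : Conf d => ∑ w ∈ Λ, wt t w * (z w : ℝ)) S
    ⟨x, hxS⟩
  refine ⟨z, hzS.1, hzS.2.1, hzS.2.2.1, ?_⟩
  intro v hvΛ hvD hocc
  have hz' : put Q z v ∈ S := by
    refine ⟨?_, put_good hbd hQ hzS.2.1 v hocc, ?_, ?_⟩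
    · intro w
      by_cases hw : ∃ u : Fin d → Fin N, w = v + emb u
      · obtain ⟨u, rfl⟩ := hw
        rw [put_in]
        obtain ⟨vQ, hvQ⟩ := hQ
        rw [← hvQ u]
        exact hA _
      · push Not at hw
        rw [put_out Q z v w hw]
        exact hzS.1 w
    · intro w hw
      rw [put_out Q z v w]
      · exact hzS.2.2.1 w hw
      · intro u hu
        rw [hu] at hw
        exact hvD u hw
    · intro w hw
      rw [put_out Q z v w]
      · exact hzS.2.2.2 w hw
      · intro u hu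
        rw [hu] at hw
        exact hw (hvΛ u)
  have hlt : ∑ w ∈ Λ, wt t w * (put Q z v w : ℝ) < ∑ w ∈ Λ, wt t w * (z w : ℝ) := by
    rw [← sub_neg, ← Finset.sum_sub_distrib]
    have h1 : ∑ w ∈ Λ, (wt t w * (put Q z v w : ℝ) - wt t w * (z w : ℝ)) =
        ∑ w ∈ Finset.univ.image (fun u : Fin d → Fin N => v + emb u),
          (wt t w * (put Q z v w : ℝ) - wt t w * (z w : ℝ)) := by
      symm
      apply Finset.sum_subset
      · intro w hw
        obtain ⟨u, _, rfl⟩ := Finset.mem_image.1 hw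
        exact hvΛ u
      · intro w _ hw
        rw [put_out Q z v w, sub_self]
        intro u hu
        exact hw (Finset.mem_image.2 ⟨u, Finset.mem_univ u, hu.symm⟩)
    rw [h1, Finset.sum_image (by
      intro u _ u' _ h
      exact emb_inj (add_left_cancel h))]
    have h2 : ∑ u : Fin d → Fin N, (wt t (v + emb u) * (put Q z v (v + emb u) : ℝ) -
        wt t (v + emb u) * (z (v + emb u) : ℝ)) =
        wt t v * ∑ u, wt t (emb u) * ((Q u : ℝ) - P u) := by
      rw [Finset.mul_sum]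
      apply Finset.sum_congr rfl
      intro u _
      rw [put_in, hocc u, wt_add ht]
      ring
    rw [h2]
    exact mul_neg_of_pos_of_neg (wt_pos ht v) hneg
  exact absurd (hmin hz' hlt.le) (not_le.2 hlt)

lemma red_limit {d N n : ℕ} {P Q : (Fin d → Fin N) → ℤ} (hbd : SameBd n P Q) {x : Conf d}
    (hQ : ∃ v, Occ Q x v) (A : Finset ℤ) (hA : ∀ v, x v ∈ A) (D : Finset (Fin d → ℤ))
    (t : Fin d → ℝ) (ht : ∀ i, 0 < t i) (hneg : ∑ u, wt t (emb u) * ((Q u : ℝ) - P u) < 0) :
    ∃ y : Conf d, (∀ v, y v ∈ A) ∧ Good n x y ∧ (∀ v ∈ D, y v = x v) ∧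
      ∀ v, (∀ u : Fin d → Fin N, v + emb u ∉ D) → ¬ Occ P y v := by
  classical
  have hbox := fun k : ℕ => red_box hbd hQ A hA D t ht hneg
    (Finset.Icc (fun _ : Fin d => -(k:ℤ)) (fun _ => (k:ℤ)))
  choose z hzA hzG hzD hzP using hbox
  have hU : ∀ v, ∃ a ∈ (A : Set ℤ), ∀ᶠ k in (hyperfilter ℕ : Filter ℕ), z k v = a := by
    intro v
    rw [← Ultrafilter.eventually_exists_mem_iff (A.finite_toSet)]
    filter_upwards with k
    exact ⟨z k v, hzA k v, rfl⟩
  choose y hyA hyU using hU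
  have hfin : ∀ F : Finset (Fin d → ℤ), ∀ᶠ k in (hyperfilter ℕ : Filter ℕ), ∀ v ∈ F, z k v = y v :=
    fun F => (Filter.eventually_all_finset F).2 fun v _ => hyU v
  refine ⟨y, hyA, ?_, ?_, ?_⟩
  · intro v
    obtain ⟨k, hk⟩ := (hfin (Finset.univ.image fun u : Fin d → Fin n => v + emb u)).exists
    obtain ⟨v', hv'⟩ := hzG k v
    refine ⟨v', fun u => ?_⟩
    rw [← hv' u, hk _ (Finset.mem_image.2 ⟨u, Finset.mem_univ u, rfl⟩)]
  · intro v hv
    obtain ⟨k, hk⟩ := (hfin {v}).exists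
    rw [← hk v (Finset.mem_singleton_self v), hzD k v hv]
  · intro v hvD hocc
    set F := Finset.univ.image fun u : Fin d → Fin N => v + emb u with hF
    have hlarge : ∀ᶠ k : ℕ in (hyperfilter ℕ : Filter ℕ), ∀ w ∈ F,
        w ∈ Finset.Icc (fun _ : Fin d => -(k:ℤ)) (fun _ => (k:ℤ)) := by
      have : ∀ᶠ k : ℕ in (atTop : Filter ℕ), ∀ w ∈ F,
          w ∈ Finset.Icc (fun _ : Fin d => -(k:ℤ)) (fun _ => (k:ℤ)) := by
        rw [Filter.eventually_all_finset]
        intro w _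
        filter_upwards [eventually_ge_atTop (supNorm w)] with k hk
        rw [Finset.mem_Icc]
        have h1 : ∀ i, (w i).natAbs ≤ k := fun i =>
          (Finset.le_sup (f := fun i => (w i).natAbs) (Finset.mem_univ i)).trans hk
        constructor
        · intro i
          have := h1 i
          simp only
          omega
        · intro i
          have := h1 i
          simp only
          omega
      exact this.filter_mono (by rw [← Nat.cofinite_eq_atTop]; exact hyperfilter_le_cofinite)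
    obtain ⟨k, hk1, hk2⟩ := (hlarge.and (hfin F)).exists
    apply hzP k v (fun u => hk1 _ (Finset.mem_image.2 ⟨u, Finset.mem_univ u, rfl⟩)) hvD
    intro u
    rw [hk2 _ (Finset.mem_image.2 ⟨u, Finset.mem_univ u, rfl⟩)]
    exact hocc u

end Pool.Agent.Q68.IT
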