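import Pool.Agent.Q68.IT.NoPair
import Pool.Agent.Q68.IT.Cnt

/-!
# Isolated transitive shifts have entropy zero
-/

set_option autoImplicit false

namespace Pool.Agent.Q68.IT

open Filter Topology Finset

variable {d : ℕ}

lemma lang_eq {X : Set (Conf d)} (hX : IsShift X) {x : Conf d} (hxX : x ∈ X)
    (hx : ∀ y ∈ X, ∀ ε > 0, ∃ u, del (shift u x) y < ε) (M : ℕ) : lang X M = Wd x M := by
  ext p
  constructor
  · rintro ⟨y, hy, v, hv⟩
    obtain ⟨u, hu⟩ := hx (shift v y) (hX.2.2 v y hy) ((1/2 : ℝ) ^ M) (by positivity)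
    refine ⟨u, fun s => ?_⟩
    have := agree_of_del_lt hu (emb s) (supNorm_emb_le s)
    unfold shift at this
    rw [this, hv]
  · rintro ⟨v, hv⟩
    exact ⟨x, hxX, v, hv⟩

theorem main (hd : 1 ≤ d) (X : Set (Conf d)) (hX : IsShift X) (hT : IsTransitive X)
    (hI : IsIsolated X) :
    Tendsto (fun n : ℕ => Real.log (Nat.card (lang X n)) / (n : ℝ) ^ d) atTop (𝓝 0) := by
  obtain ⟨x, hxX, hx⟩ := hT
  obtain ⟨n, hn⟩ := no_pair hX hxX hx hI
  obtain ⟨A, hA⟩ := hX.1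
  have := tendsto_card hd (hA x hxX) n hn
  simp only [lang_eq hX hxX hx]
  exact this

end Pool.Agent.Q68.IT
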