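import Pool.Agent.Q68.IT.Lim

/-!
# In an isolated transitive shift the boundary of a pattern determines the pattern
-/

set_option autoImplicit false

namespace Pool.Agent.Q68.IT

open Filter Topology Finset

variable {d : ℕ}

lemma del_nonneg (x y : Conf d) : 0 ≤ del x y := by
  unfold del
  split_ifs <;> positivity

lemma del_le_of_agree {x y : Conf d} {k : ℕ} (h : ∀ v, supNorm v ≤ k → x v = y v) :
    del x y ≤ (1/2 : ℝ) ^ (k + 1) := by
  unfold del
  split_ifs with hxy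
  · positivity
  · have hne : {k : ℕ | ∃ n, x n ≠ y n ∧ supNorm n = k}.Nonempty := by
      by_contra hcon
      apply hxy
      funext v
      by_contra hv
      exact hcon ⟨supNorm v, v, hv, rfl⟩
    obtain ⟨v, hv1, hv2⟩ := Nat.sInf_mem hne
    apply pow_le_pow_of_le_one (by norm_num) (by norm_num)
    rw [← hv2]
    by_contra hcon
    push Not at hcon
    exact hv1 (h v (by omega))

lemma agree_of_del_lt {x y : Conf d} {k : ℕ} (h : del x y < (1/2 : ℝ) ^ k) :
    ∀ v, supNorm v ≤ k → x v = y v := by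
  intro v hv
  by_contra hne
  unfold del at h
  rw [if_neg (by rintro rfl; exact hne rfl)] at h
  have h1 : sInf {k : ℕ | ∃ n, x n ≠ y n ∧ supNorm n = k} ≤ k :=
    le_trans (Nat.sInf_le (by exact ⟨v, hne, rfl⟩ : supNorm v ∈ _)) hv
  have h2 : (1/2 : ℝ) ^ k ≤ (1/2 : ℝ) ^ sInf {k : ℕ | ∃ n, x n ≠ y n ∧ supNorm n = k} :=
    pow_le_pow_of_le_one (by norm_num) (by norm_num) h1
  linarith

lemma exists_pow_lt {ε : ℝ} (hε : 0 < ε) : ∃ k : ℕ, (1/2 : ℝ) ^ (k + 1) < ε := by
  obtain ⟨k, hk⟩ := exists_pow_lt_of_lt_one hε (show (1/2 : ℝ) < 1 by norm_num)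
  exact ⟨k, lt_of_le_of_lt (pow_le_pow_of_le_one (by norm_num) (by norm_num) (Nat.le_succ k)) hk⟩

lemma delH_le {X Z : Set (Conf d)} (hX : X.Nonempty) (hZ : Z.Nonempty) {r : ℝ}
    (h1 : ∀ x ∈ X, ∃ z ∈ Z, del x z ≤ r) (h2 : ∀ z ∈ Z, ∃ x ∈ X, del x z ≤ r) :
    delH X Z ≤ r := by
  haveI := hX.to_subtype
  haveI := hZ.to_subtype
  unfold delH
  apply max_le
  · apply ciSup_le
    rintro ⟨x, hx⟩
    obtain ⟨z, hz, hxz⟩ := h1 x hx
    refine (ciInf_le (f := fun z : Z => del (x : Conf d) z) ⟨0, ?_⟩ ⟨z, hz⟩).trans hxz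
    rintro _ ⟨w, rfl⟩
    exact del_nonneg _ _
  · apply ciSup_le
    rintro ⟨z, hz⟩
    obtain ⟨x, hx, hxz⟩ := h2 z hz
    refine (ciInf_le (f := fun x : X => del (x : Conf d) z) ⟨0, ?_⟩ ⟨x, hx⟩).trans hxz
    rintro _ ⟨w, rfl⟩
    exact del_nonneg _ _

lemma natAbs_le_supNorm (v : Fin d → ℤ) (i : Fin d) : (v i).natAbs ≤ supNorm v :=
  Finset.le_sup (f := fun i => (v i).natAbs) (Finset.mem_univ i)

lemma supNorm_le_iff (v : Fin d → ℤ) (k : ℕ) : supNorm v ≤ k ↔ ∀ i, (v i).natAbs ≤ k := by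
  unfold supNorm
  rw [Finset.sup_le_iff]
  simp

lemma supNorm_add_le (v w : Fin d → ℤ) : supNorm (v + w) ≤ supNorm v + supNorm w := by
  rw [supNorm_le_iff]
  intro i
  have h1 := natAbs_le_supNorm v i
  have h2 := natAbs_le_supNorm w i
  simp only [Pi.add_apply]
  omega

lemma supNorm_emb_le {N : ℕ} (u : Fin d → Fin N) : supNorm (emb u) ≤ N := by
  rw [supNorm_le_iff]
  intro i
  have := (u i).isLt
  simp only [emb]
  omega

/-- The orbit closure. -/
def clos (y : Conf d) : Set (Conf d) :=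
  {z | ∀ k : ℕ, ∃ u, ∀ v, supNorm v ≤ k → z v = y (u + v)}

lemma mem_clos_self (y : Conf d) : y ∈ clos y := fun _ => ⟨0, fun v _ => by rw [zero_add]⟩

lemma shift_mem_clos (y : Conf d) (u : Fin d → ℤ) : shift u y ∈ clos y :=
  fun _ => ⟨u, fun _ _ => rfl⟩

lemma clos_isShift (y : Conf d) (A : Finset ℤ) (hA : ∀ v, y v ∈ A) : IsShift (clos y) := by
  refine ⟨⟨A, ?_⟩, ?_, ?_⟩
  · intro z hz v
    obtain ⟨u, hu⟩ := hz (supNorm v)
    rw [hu v le_rfl]
    exact hA _
  · intro z hz k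
    obtain ⟨z', hz', hlt⟩ := hz ((1/2 : ℝ) ^ k) (by positivity)
    obtain ⟨u, hu⟩ := hz' k
    exact ⟨u, fun v hv => by rw [agree_of_del_lt hlt v hv, hu v hv]⟩
  · intro w z hz k
    obtain ⟨u, hu⟩ := hz (k + supNorm w)
    refine ⟨u + w, fun v hv => ?_⟩
    have := hu (w + v) (by have := supNorm_add_le w v; omega)
    unfold shift
    rw [this, add_assoc]

lemma clos_isTransitive (y : Conf d) : IsTransitive (clos y) := by
  refine ⟨y, mem_clos_self y, ?_⟩
  intro z hz ε hε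
  obtain ⟨k, hk⟩ := exists_pow_lt hε
  obtain ⟨u, hu⟩ := hz k
  refine ⟨u, lt_of_le_of_lt (del_le_of_agree fun v hv => ?_) hk⟩
  exact (hu v hv).symm

lemma no_pair_aux {X : Set (Conf d)} (hX : IsShift X) {x : Conf d} (hxX : x ∈ X)
    (hx : ∀ y ∈ X, ∀ ε > 0, ∃ u, del (shift u x) y < ε) {k0 : ℕ}
    (hiso : ∀ Y : Set (Conf d), IsShift Y → IsTransitive Y → delH X Y ≤ (1/2 : ℝ) ^ (k0 + 1) → Y = X)
    {N : ℕ} {P Q : (Fin d → Fin N) → ℤ} (hP : {v | Occ P x v}.Infinite)
    (hQ : {v | Occ Q x v}.Infinite) (hbd : SameBd (2 * k0 + 1) P Q)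
    (t : Fin d → ℝ) (ht : ∀ i, 0 < t i) (hneg : ∑ u, wt t (emb u) * ((Q u : ℝ) - P u) < 0) :
    False := by
  classical
  obtain ⟨⟨A, hA⟩, hclosed, hinv⟩ := hX
  set n := 2 * k0 + 1 with hn
  have hWfin : {p : (Fin d → Fin n) → ℤ | ∃ v, Occ p x v}.Finite := by
    apply Set.Finite.subset (Set.Finite.pi (fun _ : Fin d → Fin n => A.finite_toSet))
    rintro p ⟨v, hv⟩ u _
    rw [← hv u]
    exact hA x hxX _
  have hW : ∀ p ∈ {p : (Fin d → Fin n) → ℤ | ∃ v, Occ p x v}, ∃ v, Occ p x v := fun p hp => hp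
  choose! vp hvp using hW
  set D : Finset (Fin d → ℤ) := hWfin.toFinset.biUnion fun p =>
    Finset.univ.image fun u : Fin d → Fin n => vp p + emb u with hD
  have hDmem : ∀ p : (Fin d → Fin n) → ℤ, (∃ v, Occ p x v) →
      ∀ u : Fin d → Fin n, vp p + emb u ∈ D := by
    intro p hp u
    rw [hD, Finset.mem_biUnion]
    exact ⟨p, hWfin.mem_toFinset.2 hp, Finset.mem_image.2 ⟨u, Finset.mem_univ u, rfl⟩⟩
  obtain ⟨y, hyA, hyG, hyD, hyP⟩ := red_limit hbd (Q := Q) hQ.nonempty A (hA x hxX) D t ht hneg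
  -- the closure of the orbit of `y` is `X`
  have hYX : clos y = X := by
    apply hiso _ (clos_isShift y A hyA) (clos_isTransitive y)
    apply delH_le ⟨x, hxX⟩ ⟨y, mem_clos_self y⟩
    · intro a ha
      obtain ⟨u0, hu0⟩ := hx a ha ((1/2 : ℝ) ^ k0) (by positivity)
      have hag := agree_of_del_lt hu0
      let p : (Fin d → Fin n) → ℤ := fun s => x (u0 - (fun _ => (k0:ℤ)) + emb s)
      have hp : ∃ v, Occ p x v := ⟨u0 - (fun _ => (k0:ℤ)), fun s => rfl⟩
      refine ⟨shift (vp p + fun _ => (k0:ℤ)) y, shift_mem_clos y _, del_le_of_agree fun v hv => ?_⟩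
      rw [supNorm_le_iff] at hv
      let s : Fin d → Fin n := fun i => ⟨(v i + k0).toNat, by have := hv i; omega⟩
      have hs : emb s = v + fun _ => (k0:ℤ) := by
        funext i
        have := hv i
        simp only [emb, s, Pi.add_apply]
        omega
      have h1 : shift (vp p + fun _ => (k0:ℤ)) y v = y (vp p + emb s) := by
        unfold shift
        rw [hs]
        congr 1
        abel
      rw [h1, hyD _ (hDmem p hp s), hvp p hp s]
      simp only [p]
      rw [← hag v ((supNorm_le_iff v k0).2 hv)]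
      unfold shift
      rw [hs]
      congr 1
      abel
    · intro b hb
      obtain ⟨u, hu⟩ := hb k0
      obtain ⟨v', hv'⟩ := hyG (u - fun _ => (k0:ℤ))
      refine ⟨shift (v' + fun _ => (k0:ℤ)) x, hinv _ x hxX, del_le_of_agree fun v hv => ?_⟩
      rw [hu v hv]
      rw [supNorm_le_iff] at hv
      let s : Fin d → Fin n := fun i => ⟨(v i + k0).toNat, by have := hv i; omega⟩
      have hs : emb s = v + fun _ => (k0:ℤ) := by
        funext i
        have := hv i
        simp only [emb, s, Pi.add_apply]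
        omega
      have h2 := hv' s
      rw [hs] at h2
      unfold shift
      have h3 : u - (fun _ => (k0:ℤ)) + (v + fun _ => (k0:ℤ)) = u + v := by abel
      rw [h3] at h2
      rw [h2]
      congr 1
      abel
  -- finitely many occurrences of `P` in `y`
  have hV : {v | Occ P y v}.Finite := by
    apply Set.Finite.subset (Finset.finite_toSet (Finset.univ.biUnion fun u : Fin d → Fin N =>
      D.image fun w => w - emb u))
    intro v hv
    have : ¬ ∀ u : Fin d → Fin N, v + emb u ∉ D := fun h => hyP v h hv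
    push Not at this
    obtain ⟨u, hu⟩ := this
    rw [Finset.mem_coe, Finset.mem_biUnion]
    exact ⟨u, Finset.mem_univ u, Finset.mem_image.2 ⟨_, hu, by simp⟩⟩
  obtain ⟨v0, hv0⟩ := hP.nonempty
  have hmem : shift v0 x ∈ clos y := by
    rw [hYX]
    exact hinv v0 x hxX
  -- a single translate
  have hex : ∃ u, ∀ v, x (v0 + v) = y (u + v) := by
    by_contra hcon
    push Not at hcon
    choose w hw using hcon
    obtain ⟨u, hu⟩ := hmem (max N (hV.toFinset.sup fun u => supNorm (w u)))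
    have huV : u ∈ {v | Occ P y v} := by
      intro s
      rw [← hu (emb s) ((supNorm_emb_le s).trans (le_max_left _ _))]
      exact hv0 s
    have h1 : supNorm (w u) ≤ max N (hV.toFinset.sup fun u => supNorm (w u)) :=
      (Finset.le_sup (f := fun u => supNorm (w u)) (hV.mem_toFinset.2 huV)).trans (le_max_right _ _)
    exact hw u (hu (w u) h1)
  obtain ⟨u, hu⟩ := hex
  apply hP
  have hsub : (fun v => v - v0 + u) '' {v | Occ P x v} ⊆ {v | Occ P y v} := by
    rintro _ ⟨v, hv, rfl⟩ s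
    have h1 := hu (v - v0 + emb s)
    have h2 : v0 + (v - v0 + emb s) = v + emb s := by abel
    have h3 : u + (v - v0 + emb s) = v - v0 + u + emb s := by abel
    rw [h2, h3] at h1
    rw [← h1]
    exact hv s
  apply Set.Finite.of_finite_image (hV.subset hsub)
  intro a _ b _ hab
  simp only at hab
  have h1 : a - v0 = b - v0 := add_right_cancel hab
  exact sub_left_injective h1

lemma no_pair {X : Set (Conf d)} (hX : IsShift X) {x : Conf d} (hxX : x ∈ X)
    (hx : ∀ y ∈ X, ∀ ε > 0, ∃ u, del (shift u x) y < ε) (hiso : IsIsolated X) :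
    ∃ n : ℕ, ∀ (N : ℕ) (P Q : (Fin d → Fin N) → ℤ), {v | Occ P x v}.Infinite →
      {v | Occ Q x v}.Infinite → SameBd n P Q → P = Q := by
  obtain ⟨ε, hε, hiso⟩ := hiso
  obtain ⟨k0, hk0⟩ := exists_pow_lt hε
  have hiso' : ∀ Y : Set (Conf d), IsShift Y → IsTransitive Y →
      delH X Y ≤ (1/2 : ℝ) ^ (k0 + 1) → Y = X :=
    fun Y h1 h2 h3 => hiso Y h1 h2 (lt_of_le_of_lt h3 hk0)
  refine ⟨2 * k0 + 1, ?_⟩
  intro N P Q hP hQ hbd
  by_contra hne
  obtain ⟨t, ht, hsum⟩ := exists_weight P Q hne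
  rcases lt_or_gt_of_ne hsum with h1 | h1
  · exact no_pair_aux hX hxX hx hiso' hP hQ hbd t ht h1
  · apply no_pair_aux hX hxX hx hiso' hQ hP (fun u hu => (hbd u hu).symm) t ht
    have : ∑ u, wt t (emb u) * ((P u : ℝ) - Q u) = - ∑ u, wt t (emb u) * ((Q u : ℝ) - P u) := by
      rw [← Finset.sum_neg_distrib]
      exact Finset.sum_congr rfl fun u _ => by ring
    rw [this]
    linarith

end Pool.Agent.Q68.IT
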