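import Pool.Agent.Q68.IT.Defs

/-!
# Removing a pattern outside of a finite window
-/

set_option autoImplicit false

namespace Pool.Agent.Q68.IT

open Filter Topology Finset

/-- `p` occurs in `x` at `v`. -/
def Occ {d N : ℕ} (p : (Fin d → Fin N) → ℤ) (x : Conf d) (v : Fin d → ℤ) : Prop :=
  ∀ u, x (v + emb u) = p u

/-- All `n`-windows of `z` occur in `x`. -/
def Good {d : ℕ} (n : ℕ) (x z : Conf d) : Prop :=
  ∀ v, ∃ v', ∀ u : Fin d → Fin n, z (v + emb u) = x (v' + emb u)

/-- The weight. -/
noncomputable def wt {d : ℕ} (t : Fin d → ℝ) (v : Fin d → ℤ) : ℝ := ∏ i, t i ^ v i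

lemma wt_pos {d : ℕ} {t : Fin d → ℝ} (ht : ∀ i, 0 < t i) (v : Fin d → ℤ) : 0 < wt t v :=
  Finset.prod_pos fun i _ => zpow_pos (ht i) _

lemma wt_add {d : ℕ} {t : Fin d → ℝ} (ht : ∀ i, 0 < t i) (v w : Fin d → ℤ) :
    wt t (v + w) = wt t v * wt t w := by
  unfold wt
  rw [← Finset.prod_mul_distrib]
  exact Finset.prod_congr rfl fun i _ => by rw [Pi.add_apply, zpow_add₀ (ht i).ne']

/-- Distinct patterns are separated by some weight. -/
lemma exists_weight {d N : ℕ} (P Q : (Fin d → Fin N) → ℤ) (h : P ≠ Q) :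
    ∃ t : Fin d → ℝ, (∀ i, 0 < t i) ∧ ∑ u, wt t (emb u) * ((Q u : ℝ) - P u) ≠ 0 := by
  classical
  by_contra hcon
  push Not at hcon
  apply h
  let f : MvPolynomial (Fin d) ℝ :=
    ∑ u : Fin d → Fin N, MvPolynomial.monomial (Finsupp.equivFunOnFinite.symm fun i => (u i : ℕ))
      ((Q u : ℝ) - P u)
  have hf : f = 0 := by
    apply MvPolynomial.funext_set (fun _ => Set.Ioi (0:ℝ)) (fun _ => Set.Ioi_infinite 0)
    intro t ht
    rw [map_zero]
    have h1 := hcon t (fun i => ht i (Set.mem_univ i))
    rw [← h1]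
    simp only [f, map_sum, MvPolynomial.eval_monomial]
    apply Finset.sum_congr rfl
    intro u _
    rw [mul_comm]
    congr 1
    unfold wt emb
    rw [Finsupp.prod_fintype _ _ (by simp)]
    apply Finset.prod_congr rfl
    intro i _
    simp
  funext u
  have h2 : MvPolynomial.coeff (Finsupp.equivFunOnFinite.symm fun i => (u i : ℕ)) f = 0 := by
    rw [hf]; simp
  simp only [f, MvPolynomial.coeff_sum, MvPolynomial.coeff_monomial] at h2
  rw [Finset.sum_eq_single u] at h2
  · simp at h2
    have : ((Q u : ℤ) : ℝ) = P u := by linarith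
    exact_mod_cast this.symm
  · intro b _ hb
    rw [if_neg]
    intro h3
    apply hb
    funext i
    have := DFunLike.congr_fun h3 i
    simp at this
    exact Fin.ext this
  · intro h3
    exact absurd (Finset.mem_univ u) h3

open Classical in
/-- Put the pattern `Q` at `v`. -/
noncomputable def put {d N : ℕ} (Q : (Fin d → Fin N) → ℤ) (z : Conf d) (v : Fin d → ℤ) : Conf d :=
  fun w => if h : ∃ u : Fin d → Fin N, w = v + emb u then Q h.choose else z w

lemma emb_inj {d N : ℕ} {u u' : Fin d → Fin N} (h : emb u = emb u') : u = u' := by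
  funext i
  have := congrFun h i
  simp only [emb] at this
  exact Fin.ext (by exact_mod_cast this)

lemma put_in {d N : ℕ} (Q : (Fin d → Fin N) → ℤ) (z : Conf d) (v : Fin d → ℤ)
    (u : Fin d → Fin N) : put Q z v (v + emb u) = Q u := by
  have h : ∃ u' : Fin d → Fin N, v + emb u = v + emb u' := ⟨u, rfl⟩
  unfold put
  rw [dif_pos h]
  have := h.choose_spec
  have h2 : emb u = emb h.choose := add_left_cancel this
  rw [← emb_inj h2]

lemma put_out {d N : ℕ} (Q : (Fin d → Fin N) → ℤ) (z : Conf d) (v w : Fin d → ℤ)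
    (h : ∀ u : Fin d → Fin N, w ≠ v + emb u) : put Q z v w = z w := by
  unfold put
  rw [dif_neg]
  rintro ⟨u, hu⟩
  exact h u hu

/-- The boundary condition. -/
def SameBd {d N : ℕ} (n : ℕ) (P Q : (Fin d → Fin N) → ℤ) : Prop :=
  ∀ u : Fin d → Fin N, (∃ i, (u i : ℕ) < n ∨ N ≤ (u i : ℕ) + n) → P u = Q u

lemma put_good {d N n : ℕ} {P Q : (Fin d → Fin N) → ℤ} (hbd : SameBd n P Q) {x z : Conf d}
    (hQ : ∃ v, Occ Q x v) (hz : Good n x z) (v : Fin d → ℤ) (hP : Occ P z v) :
    Good n x (put Q z v) := by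
  classical
  obtain ⟨vQ, hvQ⟩ := hQ
  intro w
  by_cases hs : ∃ s : Fin d → Fin n, ∀ i, (n : ℤ) ≤ (w + emb s - v) i ∧
      (w + emb s - v) i + n < N
  · obtain ⟨s, hs⟩ := hs
    refine ⟨vQ + (w - v), fun s' => ?_⟩
    have hr : ∀ i, 0 ≤ (w + emb s' - v) i ∧ (w + emb s' - v) i < N := by
      intro i
      have h1 := hs i
      simp only [Pi.sub_apply, Pi.add_apply, emb] at h1 ⊢
      have h2 := (s i).isLt
      have h3 := (s' i).isLt
      omega
    let u' : Fin d → Fin N := fun i => ⟨((w + emb s' - v) i).toNat, by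
      have := hr i
      omega⟩
    have hu' : w + emb s' = v + emb u' := by
      funext i
      have := hr i
      simp only [Pi.sub_apply, Pi.add_apply, emb, u'] at this ⊢
      omega
    rw [hu', put_in, ← hvQ u']
    congr 1
    rw [show emb u' = w + emb s' - v from by rw [hu']; simp]
    abel
  · push Not at hs
    have hsame : ∀ s : Fin d → Fin n, put Q z v (w + emb s) = z (w + emb s) := by
      intro s
      by_cases hin : ∃ u : Fin d → Fin N, w + emb s = v + emb u
      · obtain ⟨u, hu⟩ := hin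
        rw [hu, put_in, hP u]
        symm
        apply hbd u
        by_contra hcon
        push Not at hcon
        obtain ⟨i, hi⟩ := hs s
        rw [hu] at hi
        simp only [add_sub_cancel_left, emb] at hi
        have := hcon i
        have h4 := hi (by exact_mod_cast this.1)
        have h5 := this.2
        omega
      · push Not at hin
        exact put_out Q z v _ hin
    obtain ⟨v', hv'⟩ := hz w
    exact ⟨v', fun s => by rw [hsame, hv']⟩

end Pool.Agent.Q68.IT
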